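import Pool.Agent.Helper12.XG.St

/-!
# XG module GAM: the coefficients for the nodes `N + k²`
-/

set_option autoImplicit false

namespace Pool.Agent.Helper51.XG

open Finset Polynomial Pool.Agent.Helper12.XG Pool.Agent.Helper14.GS

private noncomputable def aa (N k : ℕ) : ℝ := (N : ℝ) + (k : ℝ) ^ 2

private def mm (i₀ q k : ℕ) : ℕ := if k = 0 then i₀ + 1 else q + 1

private theorem sq_dist {k k' : ℕ} (h : k ≠ k') : 1 ≤ |(k : ℝ) ^ 2 - (k' : ℝ) ^ 2| := by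
  have h1 : ((k : ℤ) ^ 2 - (k' : ℤ) ^ 2) ≠ 0 := by
    intro h2
    have h3 : (k : ℤ) ^ 2 = (k' : ℤ) ^ 2 := by linarith
    have h4 : k ^ 2 = k' ^ 2 := by exact_mod_cast h3
    exact h (Nat.pow_left_injective (by norm_num : (2 : ℕ) ≠ 0) h4)
  have h2 := Int.one_le_abs h1
  have h3 : ((1 : ℤ) : ℝ) ≤ ((|(k : ℤ) ^ 2 - (k' : ℤ) ^ 2| : ℤ) : ℝ) := by exact_mod_cast h2
  push_cast at h3
  exact h3

private theorem aa_dist (N : ℕ) {k k' : ℕ} (h : k ≠ k') : 1 ≤ |aa N k - aa N k'| := by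
  have h1 : aa N k - aa N k' = (k : ℝ) ^ 2 - (k' : ℝ) ^ 2 := by unfold aa; ring
  rw [h1]
  exact sq_dist h

private theorem low (N : ℕ) (k k' : ℕ) (z : ℂ) (hz : ‖z - (aa N k : ℂ)‖ = 1 / 2) :
    |(k : ℝ) ^ 2 - (k' : ℝ) ^ 2| - 1 / 2 ≤ ‖z - (aa N k' : ℂ)‖ := by
  have h1 : ((aa N k : ℂ) - (aa N k' : ℂ)) = (z - (aa N k' : ℂ)) - (z - (aa N k : ℂ)) := by ring
  have h2 : ‖(aa N k : ℂ) - (aa N k' : ℂ)‖ ≤ ‖z - (aa N k' : ℂ)‖ + ‖z - (aa N k : ℂ)‖ := by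
    rw [h1]; exact norm_sub_le _ _
  have h3 : ‖(aa N k : ℂ) - (aa N k' : ℂ)‖ = |(k : ℝ) ^ 2 - (k' : ℝ) ^ 2| := by
    rw [← Complex.ofReal_sub, Complex.norm_real, Real.norm_eq_abs]
    congr 1
    unfold aa; ring
  rw [h3, hz] at h2
  linarith

private theorem er0 (Q : ℕ) : (range (Q + 1)).erase 0 = Icc 1 Q := by
  ext x; simp only [mem_erase, mem_range, mem_Icc]; omega

private theorem erk {Q k : ℕ} (hk : 1 ≤ k) : (range (Q + 1)).erase k = insert 0 ((Icc 1 Q).erase k) := by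
  ext x; simp only [mem_erase, mem_range, mem_Icc, mem_insert]; omega

private theorem DP_monic (n : ℕ) (a : ℕ → ℝ) (m : ℕ → ℕ) : (DP n a m).Monic := by
  unfold DP
  exact monic_prod_of_monic _ _ fun k _ => (monic_X_sub_C _).pow _

private theorem DP_deg (n : ℕ) (a : ℕ → ℝ) (m : ℕ → ℕ) : (DP n a m).natDegree = ∑ k ∈ range n, m k := by
  unfold DP
  rw [natDegree_prod_of_monic _ _ fun k _ => (monic_X_sub_C _).pow _]
  refine Finset.sum_congr rfl fun k _ => ?_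
  rw [(monic_X_sub_C _).natDegree_pow, natDegree_X_sub_C, mul_one]

private theorem div_zero (Q i₀ q N : ℕ) : (1 : ℂ[X]) /ₘ DP (Q + 1) (aa N) (mm i₀ q) = 0 := by
  rw [divByMonic_eq_zero_iff (DP_monic _ _ _), degree_one]
  rw [degree_eq_natDegree (DP_monic _ _ _).ne_zero, DP_deg]
  have h1 : 0 < ∑ k ∈ range (Q + 1), mm i₀ q k := by
    refine Finset.sum_pos (fun k _ => ?_) ⟨0, by simp⟩
    unfold mm; split_ifs <;> omega
  exact_mod_cast h1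

private theorem prod_sq (Q q : ℕ) :
    ∏ k ∈ Icc 1 Q, ((k : ℝ) ^ 2) ^ (q + 1) = ((Q.factorial : ℝ)) ^ (2 * (q + 1)) := by
  rw [Finset.prod_pow, Finset.prod_pow, ← pow_mul]
  congr 1
  induction Q with
  | zero => simp
  | succ Q ih =>
    rw [← Finset.insert_Icc_right_eq_Icc_add_one (by omega), Finset.prod_insert (by simp), ih,
      Nat.factorial_succ]
    push_cast
    ring

theorem hGAM (h1 : StPFE) (h2 : StPFB) (h3 : StPRE) : StGAM := by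
  intro Q q i₀ N hQ hi₀
  obtain ⟨γ, hγ⟩ := h1 (Q + 1) (aa N) (mm i₀ q) 1 (by
    intro k _ k' _ hkk' h
    have := aa_dist N hkk'
    rw [h, sub_self, abs_zero] at this
    linarith)
  rw [div_zero] at hγ
  have hB := h2 (Q + 1) (aa N) (mm i₀ q) 1 0 γ (fun k _ k' _ hkk' => aa_dist N hkk') hγ
  have hF : (0 : ℝ) < (Q.factorial : ℝ) := by exact_mod_cast Nat.factorial_pos Q
  have hF2 : (0 : ℝ) < (Q.factorial : ℝ) ^ (2 * (q + 1)) := by positivity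
  have hQ1 : (1 : ℝ) ≤ Q := by exact_mod_cast hQ
  -- the leading coefficient
  have hlead : ‖γ 0 i₀‖ = ((Q.factorial : ℝ) ^ (2 * (q + 1)))⁻¹ := by
    have h4 := (hB 0 (by simp)).1 (by simp [mm])
    have h5 : mm i₀ q 0 - 1 = i₀ := by simp [mm]
    rw [h5, eval_one, er0] at h4
    rw [h4, norm_div, norm_one, norm_prod, one_div, ← prod_sq Q q]
    congr 1
    refine Finset.prod_congr rfl fun k hk => ?_
    have hk1 : k ≠ 0 := by have := (mem_Icc.1 hk).1; omega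
    rw [norm_pow, ← Complex.ofReal_sub, Complex.norm_real, Real.norm_eq_abs]
    have h6 : aa N 0 - aa N k = -((k : ℝ) ^ 2) := by unfold aa; push_cast; ring
    rw [h6, abs_neg, abs_of_nonneg (by positivity)]
    simp [mm, hk1]
  refine ⟨γ, hγ, ?_, ?_⟩
  · rw [hlead, inv_mul_cancel₀ hF2.ne']
  intro k hk i hi
  have hkQ : k ≤ Q := by have := mem_range.1 hk; omega
  rw [hlead]
  rcases Nat.eq_zero_or_pos k with hk0 | hk1
  · -- the node `0`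
    subst hk0
    have hS0 : (0 : ℝ) ≤ ((Q : ℝ) + 1) ^ (q + 1) * ((Q.factorial : ℝ) ^ (2 * (q + 1)))⁻¹ := by positivity
    have h4 := (hB 0 (by simp)).2 (((Q : ℝ) + 1) ^ (q + 1) * ((Q.factorial : ℝ) ^ (2 * (q + 1)))⁻¹) hS0 (by
      intro z hz
      rw [eval_one, norm_one, er0]
      have h5 : ∏ k' ∈ Icc 1 Q, ((k' : ℝ) ^ 2 - 1 / 2) ^ (q + 1) ≤
          ∏ k' ∈ Icc 1 Q, ‖z - (aa N k' : ℂ)‖ ^ (mm i₀ q k') := by
        refine Finset.prod_le_prod (fun k' hk' => ?_) (fun k' hk' => ?_)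
        · have h6 : (1 : ℝ) ≤ (k' : ℝ) := by exact_mod_cast (mem_Icc.1 hk').1
          exact pow_nonneg (by nlinarith) _
        · have h6 : (1 : ℝ) ≤ (k' : ℝ) := by exact_mod_cast (mem_Icc.1 hk').1
          have hk0 : k' ≠ 0 := by have := (mem_Icc.1 hk').1; omega
          have h7 : mm i₀ q k' = q + 1 := by simp [mm, hk0]
          rw [h7]
          refine pow_le_pow_left₀ (by nlinarith) ?_ _
          have h8 := low N 0 k' z hz
          have h9 : |((0 : ℕ) : ℝ) ^ 2 - (k' : ℝ) ^ 2| = (k' : ℝ) ^ 2 := by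
            rw [Nat.cast_zero, zero_pow (by norm_num), zero_sub, abs_neg, abs_of_nonneg (by positivity)]
          rw [h9] at h8
          exact h8
      have h6 := h3.2 Q
      have h7 : (0 : ℝ) < (Q : ℝ) + 1 := by linarith
      have h8 : ((Q.factorial : ℝ) ^ 2) ^ (q + 1) ≤
          (((Q : ℝ) + 1) * ∏ k' ∈ Icc 1 Q, ((k' : ℝ) ^ 2 - 1 / 2)) ^ (q + 1) :=
        pow_le_pow_left₀ (by positivity) h6 _
      rw [mul_pow, ← Finset.prod_pow, ← pow_mul] at h8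
      have h9 : (Q.factorial : ℝ) ^ (2 * (q + 1)) ≤
          ((Q : ℝ) + 1) ^ (q + 1) * ∏ k' ∈ Icc 1 Q, ‖z - (aa N k' : ℂ)‖ ^ (mm i₀ q k') :=
        h8.trans (mul_le_mul_of_nonneg_left h5 (by positivity))
      rw [mul_right_comm]
      rw [← div_eq_mul_inv, le_div_iff₀ hF2, one_mul]
      exact h9) i (by simpa [mm] using hi)
    refine h4.trans ?_
    have h5 : mm i₀ q 0 = i₀ + 1 := by simp [mm]
    rw [h5]
    have h6 : (2 : ℝ) ^ (i₀ + 1) ≤ 2 ^ (q + 1) := pow_le_pow_right₀ (by norm_num) (by omega)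
    have h7 : (2 * ((Q : ℝ) + 1)) ^ (q + 1) ≤ (16 * (Q : ℝ) ^ 4) ^ (q + 1) := by
      refine pow_le_pow_left₀ (by positivity) ?_ _
      have h8 : (Q : ℝ) ≤ (Q : ℝ) ^ 4 := by
        calc (Q : ℝ) = (Q : ℝ) ^ 1 := (pow_one _).symm
          _ ≤ (Q : ℝ) ^ 4 := pow_le_pow_right₀ hQ1 (by norm_num)
      nlinarith
    have h9 : (2 : ℝ) ^ (i₀ + 1) * ((Q : ℝ) + 1) ^ (q + 1) ≤ (16 * (Q : ℝ) ^ 4) ^ (q + 1) := by
      refine le_trans ?_ h7
      rw [mul_pow]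
      exact mul_le_mul_of_nonneg_right h6 (by positivity)
    rw [← mul_assoc]
    exact mul_le_mul_of_nonneg_right h9 (by positivity)
  · -- the other nodes
    have hkne : k ≠ 0 := by omega
    have hmk : mm i₀ q k = q + 1 := by simp [mm, hkne]
    have hS0 : (0 : ℝ) ≤ 2 ^ (q + 1) * (4 * (Q : ℝ) ^ 4) ^ (q + 1) *
        ((Q.factorial : ℝ) ^ (2 * (q + 1)))⁻¹ := by positivity
    have h4 := (hB k hk).2 (2 ^ (q + 1) * (4 * (Q : ℝ) ^ 4) ^ (q + 1) *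
        ((Q.factorial : ℝ) ^ (2 * (q + 1)))⁻¹) hS0 (by
      intro z hz
      rw [eval_one, norm_one, erk hk1, prod_insert (by simp)]
      have hm0 : mm i₀ q 0 = i₀ + 1 := by simp [mm]
      rw [hm0]
      have hk2 : (1 : ℝ) ≤ (k : ℝ) := by exact_mod_cast hk1
      have hz0 : (1 / 2 : ℝ) ^ (q + 1) ≤ ‖z - (aa N 0 : ℂ)‖ ^ (i₀ + 1) := by
        have h8 := low N k 0 z hz
        have h9 : |(k : ℝ) ^ 2 - ((0 : ℕ) : ℝ) ^ 2| = (k : ℝ) ^ 2 := by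
          rw [Nat.cast_zero, zero_pow (by norm_num), sub_zero, abs_of_nonneg (by positivity)]
        rw [h9] at h8
        have h10 : (1 / 2 : ℝ) ≤ ‖z - (aa N 0 : ℂ)‖ := by nlinarith
        calc (1 / 2 : ℝ) ^ (q + 1) ≤ (1 / 2 : ℝ) ^ (i₀ + 1) :=
              pow_le_pow_of_le_one (by norm_num) (by norm_num) (by omega)
          _ ≤ _ := pow_le_pow_left₀ (by norm_num) h10 _
      have h5 : ∏ k' ∈ (Icc 1 Q).erase k, (|(k : ℝ) ^ 2 - (k' : ℝ) ^ 2| - 1 / 2) ^ (q + 1) ≤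
          ∏ k' ∈ (Icc 1 Q).erase k, ‖z - (aa N k' : ℂ)‖ ^ (mm i₀ q k') := by
        refine Finset.prod_le_prod (fun k' hk' => ?_) (fun k' hk' => ?_)
        · have h6 := sq_dist (Ne.symm (mem_erase.1 hk').1)
          exact pow_nonneg (by linarith) _
        · have h6 := sq_dist (Ne.symm (mem_erase.1 hk').1)
          have hk0 : k' ≠ 0 := by have := (mem_Icc.1 (mem_erase.1 hk').2).1; omega
          have h7 : mm i₀ q k' = q + 1 := by simp [mm, hk0]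
          rw [h7]
          exact pow_le_pow_left₀ (by linarith) (low N k k' z hz) _
      have h6 := h3.1 Q k hk1 hkQ
      have h8 : ((Q.factorial : ℝ) ^ 2) ^ (q + 1) ≤ (4 * (Q : ℝ) ^ 4 *
          ∏ k' ∈ (Icc 1 Q).erase k, (|(k : ℝ) ^ 2 - (k' : ℝ) ^ 2| - 1 / 2)) ^ (q + 1) :=
        pow_le_pow_left₀ (by positivity) h6 _
      rw [mul_pow, ← Finset.prod_pow, ← pow_mul] at h8
      have h9 : (Q.factorial : ℝ) ^ (2 * (q + 1)) ≤ (4 * (Q : ℝ) ^ 4) ^ (q + 1) *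
          ∏ k' ∈ (Icc 1 Q).erase k, ‖z - (aa N k' : ℂ)‖ ^ (mm i₀ q k') :=
        h8.trans (mul_le_mul_of_nonneg_left h5 (by positivity))
      have h10 : (1 : ℝ) ≤ 2 ^ (q + 1) * ‖z - (aa N 0 : ℂ)‖ ^ (i₀ + 1) := by
        have h11 : (1 : ℝ) = 2 ^ (q + 1) * (1 / 2 : ℝ) ^ (q + 1) := by
          rw [← mul_pow]; norm_num
        calc (1 : ℝ) = 2 ^ (q + 1) * (1 / 2 : ℝ) ^ (q + 1) := h11
          _ ≤ _ := mul_le_mul_of_nonneg_left hz0 (by positivity)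
      have hP0 : 0 ≤ (4 * (Q : ℝ) ^ 4) ^ (q + 1) *
          ∏ k' ∈ (Icc 1 Q).erase k, ‖z - (aa N k' : ℂ)‖ ^ (mm i₀ q k') :=
        hF2.le.trans h9
      have h12 : (Q.factorial : ℝ) ^ (2 * (q + 1)) ≤ (2 ^ (q + 1) * ‖z - (aa N 0 : ℂ)‖ ^ (i₀ + 1)) *
          ((4 * (Q : ℝ) ^ 4) ^ (q + 1) *
          ∏ k' ∈ (Icc 1 Q).erase k, ‖z - (aa N k' : ℂ)‖ ^ (mm i₀ q k')) := by
        calc (Q.factorial : ℝ) ^ (2 * (q + 1)) ≤ 1 * ((4 * (Q : ℝ) ^ 4) ^ (q + 1) *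
              ∏ k' ∈ (Icc 1 Q).erase k, ‖z - (aa N k' : ℂ)‖ ^ (mm i₀ q k')) := by rw [one_mul]; exact h9
          _ ≤ _ := mul_le_mul_of_nonneg_right h10 hP0
      rw [mul_right_comm, ← div_eq_mul_inv, le_div_iff₀ hF2, one_mul]
      refine h12.trans (le_of_eq ?_)
      ring) i (by simpa [mm, hkne] using hi)
    refine h4.trans (le_of_eq ?_)
    rw [hmk]
    have h5 : (16 * (Q : ℝ) ^ 4) ^ (q + 1) = 2 ^ (q + 1) * (2 ^ (q + 1) * (4 * (Q : ℝ) ^ 4) ^ (q + 1)) := by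
      rw [← mul_pow, ← mul_pow]
      congr 1
      ring
    rw [h5]
    ring

end Pool.Agent.Helper51.XG
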